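import Pool.Agent.T6.H45.NT.H

/-!
Surjective endomorphisms with a dense orbit with nested coordinates at a piecewise syndetic set of
times: the first dynamical degree.
-/

set_option autoImplicit false

namespace Pool.Agent.T6.H45.NT

open MvPolynomial Filter
open Pool.Agent.TH8.OR
open Pool.Agent.T6.H45.KN (Nest)
open Pool.Agent.T6.H45.DR
open Pool.Agent.H251R6.SDD Pool.Agent.T6.H19.KS

variable {K k : Type} [Field K] [Field k] [Algebra K k] [Infinite k] {N : ℕ}
  {V : Set (PSpace k (Fin (N + 1)))} {f : PSpace k (Fin (N + 1)) → PSpace k (Fin (N + 1))}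
  {x0 : PSpace k (Fin (N + 1))}

/-- **Nested coordinates at a piecewise syndetic set of times: the first dynamical degree.** -/
theorem endo2 (hVK : IsVarietyOver K V) (hf : IsSurjectiveEndomorphism K V f) (hx : x0 ∈ V)
    (hdense : ∀ Z, IsZariskiClosed Z → (∀ n, f^[n] x0 ∈ Z) → V ⊆ Z)
    {T : Set ℕ} {L : ℕ} (hT : ∀ r, ∃ a, ∀ s ≤ r, ∃ i ≤ L, a + s + i ∈ T) {w : ℕ → Fin (N + 1) → k}
    (hw : ∀ m ∈ T, ∃ h : w m ≠ 0, f^[m] x0 = Projectivization.mk k (w m) h)
    {D : ℕ} (hD : 1 ≤ D) (hnest : ∀ j, Nest D fun m => w m j)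
    {δ : ℝ} (hδ : IsFirstDynamicalDegree V f δ) : δ ≤ D := by
  classical
  have hV := hVK.2
  have hloc := locRep_of_endo hf
  have hp := prime_cone hV
  obtain ⟨x, hxT, hx'⟩ : ∃ x : ℕ → Fin (N + 1) → k, (∀ m ∈ T, x m = w m) ∧
      ∀ m, ∃ h : x m ≠ 0, f^[m] x0 = Projectivization.mk k (x m) h := by
    refine ⟨fun m => if m ∈ T then w m else (f^[m] x0).rep, fun m hm => if_pos hm, fun m => ?_⟩
    by_cases hm : m ∈ T
    · simp only [if_pos hm]
      exact hw m hm
    · simp only [if_neg hm]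
      exact ⟨(f^[m] x0).rep_nonzero, (f^[m] x0).mk_rep.symm⟩
  have hx0' : ∀ m, x m ≠ 0 := fun m => (hx' m).1
  have hden := cd1 hV hloc hx hdense hx'
  have htup : ∀ n, ∃ (e : ℕ) (F : Fin (N + 1) → MvPolynomial (Fin (N + 1)) K),
      IsTuple K V (f^[n]) e F ∧ ∃ i, aeval x0.rep (F i) ≠ 0 := fun n =>
    (locRep_iterate hloc n).2 x0 hx
  obtain ⟨d, F, hF, i1, hi1⟩ := htup 1
  have hFh : ∀ i, (map (algebraMap K k) (F i)).IsHomogeneous d := fun i => (hF.1 i).map _
  have horb := fun m i j => cd3 hloc hx hx' hF m i j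
  have hdom : ∀ (e : ℕ) (H : MvPolynomial (Fin (N + 1)) k), H.IsHomogeneous e →
      (aeval (fun i => map (algebraMap K k) (F i)) H ∈ vanishingIdeal k (cone V) ↔
        H ∈ vanishingIdeal k (cone V)) := by
    intro e H hH
    constructor
    · intro h
      by_contra hcon
      exact cd4 hV hloc hf.1 hF ⟨x0, hx, i1, hi1⟩ hH hcon h
    · intro h
      refine (hden _ _ (hH.aeval _ hFh)).1 fun m => ?_
      rw [eval_aeval_F]
      obtain ⟨b, hb⟩ := Function.ne_iff.1 (hx0' (m + 1))
      have hb' : x (m + 1) b ≠ 0 := hb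
      have h1 : (fun j => eval (x m) (map (algebraMap K k) (F j))) = fun j =>
          (eval (x m) (map (algebraMap K k) (F b)) / x (m + 1) b) * x (m + 1) j := by
        funext j
        rw [div_mul_eq_mul_div, eq_div_iff hb', horb m j b]
      rw [h1, eval_scale hH, (hden e H hH).2 h (m + 1), mul_zero]
  have hdefs : ∀ n m, ∃ c H, Rep x n c H ∧ ∃ j, eval (x m) (H j) ≠ 0 := by
    intro n m
    obtain ⟨e, F', hF', i, hi⟩ := (locRep_iterate hloc n).2 (f^[m] x0) (mem_orbit hloc hx m)
    refine ⟨e, fun i => map (algebraMap K k) (F' i), ⟨fun i => (hF'.1 i).map _,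
      cd3 hloc hx hx' hF'⟩, i, ?_⟩
    obtain ⟨h', hm⟩ := hx' m
    obtain ⟨c, hc, hcw⟩ := exists_rep_smul h'
    intro h0
    apply hi
    rw [eval_map, ← aeval_def, hcw, aeval_smul (hF'.1 i), ← hm] at h0
    exact (mul_eq_zero.1 h0).resolve_left (pow_ne_zero _ hc)
  obtain ⟨C, κ, hC⟩ := pw1 hp hFh hdom hx0' horb hdefs hden hD hT hxT hnest
  obtain ⟨t, A, hA, ht⟩ := exists_t hV hloc hδ
  refine fdd_le hδ (D := D) (C2 := t.factorial * A * 3 ^ t * (C + 1) + 1) (κ := κ) hD
    fun n hn Nq hNq => ?_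
  obtain ⟨e, he, G, g1, g2, g3⟩ := hC n
  obtain ⟨en, Fn, hFn, i, hi⟩ := htup n
  have hb : ∀ b a, graphHilbert V (f^[n]) b a ≤ A * (b + (e + 1) * a + 1) ^ t := by
    intro b a
    refine ((gh_le hV (locRep_iterate hloc n) hFn ⟨x0, hx, i, hi⟩ b a).trans
      (hG_le hp (fun i => (hFn.1 i).map _) g1 g2 (fun u v => ?_) b a)).trans ((hA _).trans ?_)
    · obtain ⟨l, hl⟩ := exists_iter hFh hdom hx0' hden n
      have h2 : ∀ u v, map (algebraMap K k) (Fn u) *
          iter (fun i => map (algebraMap K k) (F i)) n v - map (algebraMap K k) (Fn v) *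
          iter (fun i => map (algebraMap K k) (F i)) n u ∈ vanishingIdeal k (cone V) := by
        intro u v
        refine (hden (en + d ^ n) _ ((((hFn.1 u).map _).mul (iter_hom hFh n v)).sub
          (((hFn.1 v).map _).mul (iter_hom hFh n u)))).1 fun m => ?_
        rw [map_sub, map_mul, map_mul]
        obtain ⟨b, hb⟩ := Function.ne_iff.1 (hx0' (m + n))
        have hb' : x (m + n) b ≠ 0 := hb
        have e1 := cd3 hloc hx hx' hFn m u b
        have e2 := cd3 hloc hx hx' hFn m v b
        have e3 := orb hFh hx0' horb n m u b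
        have e4 := orb hFh hx0' horb n m v b
        have e5 : (eval (x m) (map (algebraMap K k) (Fn u)) *
            eval (x m) (iter (fun i => map (algebraMap K k) (F i)) n v) -
            eval (x m) (map (algebraMap K k) (Fn v)) *
            eval (x m) (iter (fun i => map (algebraMap K k) (F i)) n u)) *
            (x (m + n) b * x (m + n) b) = 0 := by
          linear_combination
            (eval (x m) (iter (fun i => map (algebraMap K k) (F i)) n v) * x (m + n) b) * e1
            + (eval (x m) (map (algebraMap K k) (Fn b)) * x (m + n) u) * e4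
            - (eval (x m) (iter (fun i => map (algebraMap K k) (F i)) n u) * x (m + n) b) * e2
            - (eval (x m) (map (algebraMap K k) (Fn b)) * x (m + n) v) * e3
        exact (mul_eq_zero.1 e5).resolve_right (mul_ne_zero hb' hb')
      refine (hp.mem_or_mem (?_ : iter (fun i => map (algebraMap K k) (F i)) n l * _ ∈ _)).resolve_left
        hl
      have h3 : iter (fun i => map (algebraMap K k) (F i)) n l *
          (map (algebraMap K k) (Fn u) * G v - map (algebraMap K k) (Fn v) * G u) =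
          map (algebraMap K k) (Fn u) * (G v * iter (fun i => map (algebraMap K k) (F i)) n l -
            G l * iter (fun i => map (algebraMap K k) (F i)) n v) -
          map (algebraMap K k) (Fn v) * (G u * iter (fun i => map (algebraMap K k) (F i)) n l -
            G l * iter (fun i => map (algebraMap K k) (F i)) n u) +
          G l * (map (algebraMap K k) (Fn u) * iter (fun i => map (algebraMap K k) (F i)) n v -
            map (algebraMap K k) (Fn v) * iter (fun i => map (algebraMap K k) (F i)) n u) := by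
        ring
      rw [h3]
      exact Ideal.add_mem _ (Ideal.sub_mem _ (Ideal.mul_mem_left _ _ (g3 v l))
        (Ideal.mul_mem_left _ _ (g3 u l))) (Ideal.mul_mem_left _ _ (h2 u v))
    · refine Nat.mul_le_mul_left _ (Nat.pow_le_pow_left ?_ _)
      nlinarith [Nat.zero_le a]
  have h1 := inter_le (E := e + 1) (by omega) hb (ht n hn) hNq
  have h2 : (Nq : ℝ) ≤ t.factorial * A * 3 ^ t * ((e : ℝ) + 1) + 1 := by
    have := (Rat.cast_le (K := ℝ)).2 h1
    push_cast at this
    exact this
  have h3 : (1 : ℝ) ≤ ((n : ℝ) + 1) ^ κ * (D : ℝ) ^ n := by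
    have e1 : (1 : ℝ) ≤ ((n : ℝ) + 1) ^ κ := one_le_pow₀ (by linarith [Nat.cast_nonneg (α := ℝ) n])
    have e2 : (1 : ℝ) ≤ (D : ℝ) ^ n := one_le_pow₀ (by exact_mod_cast hD)
    nlinarith
  have h4 : (e : ℝ) ≤ C * (((n : ℝ) + 1) ^ κ * (D : ℝ) ^ n) := by
    have : (e : ℝ) ≤ ((C * (n + 1) ^ κ * D ^ n : ℕ) : ℝ) := by exact_mod_cast he
    push_cast at this
    linarith
  have h5 : (0 : ℝ) ≤ t.factorial * A * 3 ^ t := by positivity
  calc (Nq : ℝ) ≤ t.factorial * A * 3 ^ t * ((e : ℝ) + 1) + 1 := h2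
    _ ≤ t.factorial * A * 3 ^ t * (C * (((n : ℝ) + 1) ^ κ * (D : ℝ) ^ n) +
          ((n : ℝ) + 1) ^ κ * (D : ℝ) ^ n) + ((n : ℝ) + 1) ^ κ * (D : ℝ) ^ n := by
        gcongr
    _ = _ := by push_cast; ring

end Pool.Agent.T6.H45.NT
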