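import Pool.Agent.T6.H45.KN.Mn
import Pool.Agent.T6.H45.KN.Gw

/-!
Dense orbits whose points have nested coordinates at some times only: growth of the degrees of the
iterates.
-/

set_option autoImplicit false

namespace Pool.Agent.T6.H45.NT

open MvPolynomial Filter
open Pool.Agent.TH8.OR
open Pool.Agent.T6.H45.KN

variable {k : Type} [Field k] {N : ℕ}

variable {p : Ideal (MvPolynomial (Fin (N + 1)) k)}
  {F : Fin (N + 1) → MvPolynomial (Fin (N + 1)) k} {d : ℕ}

theorem assembleT (hF : ∀ j, (F j).IsHomogeneous d)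
    {w : ℕ → Fin (N + 1) → k} {j0 : Fin (N + 1)} (hj0 : X j0 ∉ p)
    (hit : ∀ n, ∃ j, iter F n j ∉ p)
    {R : Type} [Field R] [Algebra k R] (π : (ℕ → k) →ₐ[k] R)
    (hπ : ∀ u : ℕ → k, (∀ᶠ m in atTop, u m = 0) → π u = 0)
    (hker : ∀ (e : ℕ) (G : MvPolynomial (Fin (N + 1)) k), G.IsHomogeneous e →
      (aeval (fun j => π fun m => w m j) G = 0 ↔ G ∈ p))
    {δ : ℕ} (hgr : GrF δ fun (j : Fin (N + 1)) m => w m j) :
    ∃ C κ : ℕ, ∀ n,
      (∀ i j, π (fun m => eval (w m) (iter F n i) * w (m + n) j) =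
        π (fun m => eval (w m) (iter F n j) * w (m + n) i)) →
      (∃ j, π (fun m => w (m + n) j) ≠ 0) → ∃ e ≤ q δ C κ n, GivenBy p F n e := by
  classical
  obtain ⟨S, C, κ, hS⟩ := hgr
  obtain ⟨ξ, hξdef⟩ : ∃ ξ : Fin (N + 1) → R, ∀ j, ξ j = π fun m => w m j := ⟨_, fun _ => rfl⟩
  have hξ : (fun j => π fun m => w m j) = ξ := funext fun j => (hξdef j).symm
  rw [hξ] at hker
  have hξ0 : ξ j0 ≠ 0 := by
    intro h0
    exact hj0 ((hker 1 _ (isHomogeneous_X k j0)).1 (by rw [aeval_X]; exact h0))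
  obtain ⟨z, hz⟩ : ∃ z : Fin (N + 1) → R, ∀ j, z j = (ξ j0)⁻¹ * ξ j := ⟨_, fun _ => rfl⟩
  have hzf : z = fun j => (ξ j0)⁻¹ * ξ j := funext hz
  have hscale : ∀ (e : ℕ) (G : MvPolynomial (Fin (N + 1)) k), G.IsHomogeneous e →
      aeval z G = ((ξ j0)⁻¹) ^ e * aeval ξ G := fun e G hG => by
    rw [hzf]; exact aeval_scale hG ξ _
  have hzk : ∀ (e : ℕ) (G : MvPolynomial (Fin (N + 1)) k), G.IsHomogeneous e →
      (aeval z G = 0 ↔ G ∈ p) := by
    intro e G hG
    rw [hscale e G hG, ← hker e G hG, mul_eq_zero, or_iff_right]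
    exact pow_ne_zero _ (inv_ne_zero hξ0)
  let M : Submodule k R := Submodule.span k (Set.range z)
  have h1M : (1 : R) ∈ M := by
    have h1 : z j0 = 1 := by rw [hz, inv_mul_cancel₀ hξ0]
    rw [← h1]
    exact Submodule.subset_span ⟨j0, rfl⟩
  obtain ⟨C0, hC0⟩ := desc M h1M (S.image π)
  have hmap : ∀ (e : ℕ) (u : ℕ → k), u ∈ MS S ^ e →
      π u ∈ (M ⊔ Submodule.span k ((S.image π : Finset R) : Set R)) ^ e := by
    intro e u hu
    have h1 : π u ∈ (MS S ^ e).map π.toLinearMap := ⟨u, hu, rfl⟩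
    rw [Submodule.map_pow] at h1
    refine (pow_le_pow_left' (?_ : (MS S).map π.toLinearMap ≤ _) e) h1
    rw [MS, Submodule.map_span, Submodule.span_le]
    rintro _ ⟨g, hg, rfl⟩
    rcases hg with rfl | hg
    · change π 1 ∈ _
      rw [map_one]
      exact Submodule.mem_sup_left h1M
    · refine Submodule.mem_sup_right (Submodule.subset_span ?_)
      rw [Finset.coe_image]
      exact ⟨g, hg, rfl⟩
  have hunit : ∀ u : ℕ → k, (∀ᶠ m in atTop, u m ≠ 0) → π u ≠ 0 := by
    intro u hu h0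
    have h1 : π (u * (fun m => (u m)⁻¹) - 1) = 0 := by
      apply hπ
      filter_upwards [hu] with m hm
      rw [Pi.sub_apply, Pi.mul_apply, mul_inv_cancel₀ hm, Pi.one_apply, sub_self]
    rw [map_sub, map_mul, h0, zero_mul, map_one, zero_sub, neg_eq_zero] at h1
    exact one_ne_zero h1
  refine ⟨(N + 1) * C0 * C, κ, fun n hrel hne => ?_⟩
  obtain ⟨D, hD, B, hB, hDB⟩ := hS n
  obtain ⟨i0, hi0⟩ := hit n
  let a : Fin (N + 1) → R := fun j => π fun m => w (m + n) j
  have hDa : ∀ j, π D * a j = π (B j) := by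
    intro j
    have h1 : π (D * (fun m => w (m + n) j) - B j) = 0 := by
      apply hπ
      filter_upwards [hDB] with m hm
      rw [Pi.sub_apply, Pi.mul_apply, hm.2 j, sub_self]
    rw [map_sub, map_mul, sub_eq_zero] at h1
    exact h1
  have hD0 : π D ≠ 0 := hunit D (hDB.mono fun m hm => hm.1)
  have hia : ∀ i j, aeval ξ (iter F n i) * a j = aeval ξ (iter F n j) * a i := by
    intro i j
    rw [← hξ, pi_mv, pi_mv, ← map_mul, ← map_mul]
    exact hrel i j
  have hI0 : aeval ξ (iter F n i0) ≠ 0 := fun h0 =>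
    hi0 ((hker _ _ (iter_hom hF n i0)).1 h0)
  have ha0 : a i0 ≠ 0 := by
    intro h0
    have hall : ∀ j, a j = 0 := by
      intro j
      have h1 := hia i0 j
      rw [h0, mul_zero] at h1
      exact (mul_eq_zero.1 h1).resolve_left hI0
    obtain ⟨j, hj⟩ := hne
    exact hj (hall j)
  have hB0 : π (B i0) ≠ 0 := by rw [← hDa]; exact mul_ne_zero hD0 ha0
  let φ : Fin (N + 1) → R := fun j => a j / a i0
  have hφa : ∀ j, φ j * a i0 = a j := fun j => div_mul_cancel₀ _ ha0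
  have hφI : ∀ j, φ j * aeval ξ (iter F n i0) = aeval ξ (iter F n j) := by
    intro j
    refine mul_right_cancel₀ ha0 ?_
    rw [mul_assoc, mul_comm (aeval ξ (iter F n i0)), ← mul_assoc, hφa, mul_comm, hia i0 j]
  have hφz : ∀ j, φ j * aeval z (iter F n i0) = aeval z (iter F n j) := by
    intro j
    rw [hscale _ _ (iter_hom hF n i0), hscale _ _ (iter_hom hF n j), ← hφI j]
    ring
  have hz0 : aeval z (iter F n i0) ≠ 0 := fun h0 =>
    hi0 ((hzk _ _ (iter_hom hF n i0)).1 h0)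
  have hφF : ∀ j, Fr M (φ j) := fun j => ⟨d ^ n, aeval z (iter F n j), aeval z (iter F n i0),
    form_mem (iter_hom hF n j) z, form_mem (iter_hom hF n i0) z, hz0, hφz j⟩
  have hφB : ∀ j, φ j * π (B i0) = π (B j) := by
    intro j
    rw [← hDa, ← hDa, ← hφa j]
    ring
  choose G' hG' H' hH' hG0' hGH' using fun j => hC0 (φ j) (hφF j) _ _ _ (hmap _ _ (hB i0))
    (hmap _ _ (hB j)) hB0 (hφB j)
  choose G hG hGe using fun j => mem_form z _ (hG' j)
  choose H hH hHe using fun j => mem_form z _ (hH' j)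
  have hGp : ∀ j, G j ∉ p := fun j h0 => hG0' j (by
    rw [← hGe j]; exact (hzk _ _ (hG j)).2 h0)
  set e := C0 * q δ C κ n with he
  have hNum : ∀ j, (H j * ∏ l ∈ Finset.univ.erase j, G l).IsHomogeneous ((N + 1) * e) := by
    intro j
    have h1 := (hH j).mul (IsHomogeneous.prod (Finset.univ.erase j) G (fun _ => e) fun l _ => hG l)
    rw [Finset.sum_const, smul_eq_mul, Finset.card_erase_of_mem (Finset.mem_univ j),
      Finset.card_univ, Fintype.card_fin, Nat.add_sub_cancel] at h1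
    rwa [show e + N * e = (N + 1) * e by ring] at h1
  have hval : ∀ j, aeval z (H j * ∏ l ∈ Finset.univ.erase j, G l) = φ j * ∏ l, aeval z (G l) := by
    intro j
    rw [map_mul, map_prod, hHe, ← hGH' j, ← hGe j, mul_assoc,
      Finset.mul_prod_erase Finset.univ (fun l => aeval z (G l)) (Finset.mem_univ j)]
  refine ⟨(N + 1) * e, ?_, fun j => H j * ∏ l ∈ Finset.univ.erase j, G l, hNum, ⟨i0, fun h0 => ?_⟩,
    fun i j => ?_⟩
  · rw [he]
    unfold q
    exact le_of_eq (by ring)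
  · have h1 := (hzk _ _ (hNum i0)).2 h0
    rw [hval] at h1
    have h2 : φ i0 ≠ 0 := div_ne_zero ha0 ha0
    rcases mul_eq_zero.1 h1 with h3 | h3
    · exact h2 h3
    · obtain ⟨l, _, hl⟩ := Finset.prod_eq_zero_iff.1 h3
      exact hGp l ((hzk _ _ (hG l)).1 hl)
  · refine (hzk ((N + 1) * e + d ^ n) _ (((hNum i).mul (iter_hom hF n j)).sub
      ((hNum j).mul (iter_hom hF n i)))).1 ?_
    rw [map_sub, map_mul (aeval z) (H i * ∏ l ∈ Finset.univ.erase i, G l),
      map_mul (aeval z) (H j * ∏ l ∈ Finset.univ.erase j, G l), hval, hval, ← hφz i, ← hφz j]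
    ring


end Pool.Agent.T6.H45.NT
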