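import Pool.Agent.T6.H45.NT.A

/-!
Dense orbits with nested coordinates at a recurrent set of times, or at a set of times with bounded
gaps.
-/

set_option autoImplicit false

namespace Pool.Agent.T6.H45.NT

open MvPolynomial Filter
open Pool.Agent.TH8.OR
open Pool.Agent.T6.H45.KN

variable {k : Type} [Field k] {N : ℕ}

variable {p : Ideal (MvPolynomial (Fin (N + 1)) k)}
  {F : Fin (N + 1) → MvPolynomial (Fin (N + 1)) k} {d : ℕ}

/-- not all coordinates of the shifted orbit vanish -/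
theorem exists_ne {x : ℕ → Fin (N + 1) → k} (hx0 : ∀ m, x m ≠ 0) {R : Type} [Field R] [Algebra k R]
    (π : (ℕ → k) →ₐ[k] R) (n : ℕ) : ∃ j, π (fun m => x (m + n) j) ≠ 0 := by
  classical
  by_contra hcon
  push Not at hcon
  have hl : ∀ m, ∃ l, x (m + n) l ≠ 0 := fun m => Function.ne_iff.1 (hx0 (m + n))
  choose l hl using hl
  have h1 : (1 : ℕ → k) = ∑ j, (fun m => if l m = j then (x (m + n) j)⁻¹ else 0) *
      fun m => x (m + n) j := by
    funext m
    rw [Finset.sum_apply, Finset.sum_eq_single (l m)]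
    · simp [hl m]
    · intro j _ hj
      simp [Ne.symm hj]
    · intro h; exact absurd (Finset.mem_univ _) h
  have h2 : (1 : R) = 0 := by
    rw [← map_one π, h1, map_sum]
    refine Finset.sum_eq_zero fun j _ => ?_
    rw [map_mul, hcon j, mul_zero]
  exact one_ne_zero h2

theorem aux (hF : ∀ j, (F j).IsHomogeneous d) {x : ℕ → Fin (N + 1) → k} (hx0 : ∀ m, x m ≠ 0)
    (horb : ∀ m i j, eval (x m) (F i) * x (m + 1) j = eval (x m) (F j) * x (m + 1) i)
    {j0 : Fin (N + 1)} (hj0 : X j0 ∉ p) (hit : ∀ n, ∃ j, iter F n j ∉ p)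
    {R : Type} [Field R] [Algebra k R] (π : (ℕ → k) →ₐ[k] R)
    (hπ : ∀ u : ℕ → k, (∀ᶠ m in atTop, u m = 0) → π u = 0) {T : Set ℕ}
    (hT : ∀ u : ℕ → k, (∀ m ∈ T, u m = 0) → π u = 0)
    (hkx : ∀ (e : ℕ) (G : MvPolynomial (Fin (N + 1)) k), G.IsHomogeneous e →
      (π (fun m => eval (x m) G) = 0 ↔ G ∈ p))
    {w : ℕ → Fin (N + 1) → k} (hw : ∀ m ∈ T, x m = w m)
    {δ : ℕ} (hgr : GrF δ fun (j : Fin (N + 1)) m => w m j) :
    ∃ C κ : ℕ, ∀ n, (∀ u : ℕ → k, (∀ m, m + n ∈ T → u m = 0) → π u = 0) →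
      ∃ e ≤ q δ C κ n, GivenBy p F n e := by
  have hpi : ∀ u v : ℕ → k, (∀ m ∈ T, u m = v m) → π u = π v := fun u v h => by
    rw [← sub_eq_zero, ← map_sub]
    exact hT _ fun m hm => sub_eq_zero.2 (h m hm)
  obtain ⟨C, κ, hC⟩ := assembleT hF hj0 hit π hπ (w := w) (fun e G hG => by
    rw [pi_mv, hpi (fun m => eval (w m) G) (fun m => eval (x m) G) fun m hm => by rw [hw m hm],
      hkx e G hG]) hgr
  refine ⟨C, κ, fun n hn => hC n (fun i j => ?_) ?_⟩
  · have h2 : ∀ j, π (fun m => w (m + n) j) = π (fun m => x (m + n) j) := by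
      intro j
      rw [← sub_eq_zero, ← map_sub]
      refine hn _ fun m hm => ?_
      rw [Pi.sub_apply, hw _ hm, sub_self]
    have h1 : ∀ i j, π (fun m => eval (w m) (iter F n i) * w (m + n) j) =
        π (fun m => eval (x m) (iter F n i) * x (m + n) j) := by
      intro i j
      have e1 : (fun m => eval (w m) (iter F n i) * w (m + n) j) =
        (fun m => eval (w m) (iter F n i)) * (fun m => w (m + n) j) := rfl
      have e2 : (fun m => eval (x m) (iter F n i) * x (m + n) j) =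
        (fun m => eval (x m) (iter F n i)) * (fun m => x (m + n) j) := rfl
      rw [e1, e2, map_mul, map_mul, h2 j,
        hpi (fun m => eval (w m) (iter F n i)) (fun m => eval (x m) (iter F n i))
          fun m hm => by rw [hw m hm]]
    rw [h1, h1]
    congr 1
    funext m
    exact orb hF hx0 horb n m i j
  · obtain ⟨j, hj⟩ := exists_ne hx0 π n
    refine ⟨j, fun h => hj ?_⟩
    rw [← h, ← sub_eq_zero, ← map_sub]
    refine hn _ fun m hm => ?_
    rw [Pi.sub_apply, hw _ hm, sub_self]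

/-- the sequences which vanish at all large times `m` with `m + n ∈ T` for `n` in a finite subset
of `B` -/
def IB (k : Type) [Field k] (T B : Set ℕ) : Ideal (ℕ → k) where
  carrier := {u | ∃ (E : Finset ℕ) (m0 : ℕ), (E : Set ℕ) ⊆ B ∧
    ∀ m ≥ m0, (∀ n ∈ E, m + n ∈ T) → u m = 0}
  zero_mem' := ⟨∅, 0, by simp, fun _ _ _ => rfl⟩
  add_mem' := by
    classical
    rintro u v ⟨E, m0, hE, h⟩ ⟨E', m0', hE', h'⟩
    refine ⟨E ∪ E', max m0 m0', ?_, fun m hm hT => ?_⟩
    · rw [Finset.coe_union]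
      exact Set.union_subset hE hE'
    · rw [Pi.add_apply, h m (le_trans (le_max_left _ _) hm)
          fun n hn => hT n (Finset.mem_union_left _ hn),
        h' m (le_trans (le_max_right _ _) hm) fun n hn => hT n (Finset.mem_union_right _ hn),
        add_zero]
  smul_mem' := by
    rintro c u ⟨E, m0, hE, h⟩
    exact ⟨E, m0, hE, fun m hm hT => by rw [smul_eq_mul, Pi.mul_apply, h m hm hT, mul_zero]⟩

theorem exists_RI (I : Ideal (ℕ → k)) (S : Submonoid (ℕ → k)) (hS : ∀ u ∈ S, u ∉ I) :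
    ∃ (R : Type) (_ : Field R) (_ : Algebra k R) (π : (ℕ → k) →ₐ[k] R),
      (∀ u ∈ I, π u = 0) ∧ ∀ u ∈ S, π u ≠ 0 := by
  obtain ⟨q, hq, h1, h2⟩ := Ideal.exists_le_prime_disjoint I S
    (Set.disjoint_left.2 fun u hu hu' => hS u hu' hu)
  have : q.IsPrime := hq
  let A := (ℕ → k) ⧸ q
  let π : (ℕ → k) →ₐ[k] FractionRing A :=
    (IsScalarTower.toAlgHom k A (FractionRing A)).comp (Ideal.Quotient.mkₐ k q)
  have hπ : ∀ u, π u = 0 ↔ u ∈ q := by
    intro u
    change algebraMap A (FractionRing A) (Ideal.Quotient.mk q u) = 0 ↔ _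
    rw [← Ideal.Quotient.eq_zero_iff_mem]
    exact (injective_iff_map_eq_zero' _).1 (IsFractionRing.injective A (FractionRing A)) _
  exact ⟨FractionRing A, inferInstance, inferInstance, π, fun u hu => (hπ u).2 (h1 hu),
    fun u hu h0 => Set.disjoint_left.1 h2 ((hπ u).1 h0) hu⟩

/-- **Nested coordinates along a recurrent set of times.** -/
theorem recurrent (hp : p.IsPrime) (hF : ∀ j, (F j).IsHomogeneous d)
    (hdom : ∀ (e : ℕ) (H : MvPolynomial (Fin (N + 1)) k), H.IsHomogeneous e →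
      (aeval F H ∈ p ↔ H ∈ p)) {x : ℕ → Fin (N + 1) → k} (hx0 : ∀ m, x m ≠ 0)
    (horb : ∀ m i j, eval (x m) (F i) * x (m + 1) j = eval (x m) (F j) * x (m + 1) i)
    (hdense : ∀ (e : ℕ) (G : MvPolynomial (Fin (N + 1)) k), G.IsHomogeneous e →
      ((∀ m, eval (x m) G = 0) ↔ G ∈ p))
    {δ : ℕ} (hδ : 1 ≤ δ) {T B : Set ℕ} (h0 : 0 ∈ B)
    (hrec : ∀ E : Finset ℕ, (E : Set ℕ) ⊆ B → ∀ (m0 e : ℕ) (G : MvPolynomial (Fin (N + 1)) k),
      G.IsHomogeneous e → G ∉ p → ∃ m ≥ m0, (∀ n ∈ E, m + n ∈ T) ∧ eval (x m) G ≠ 0)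
    {w : ℕ → Fin (N + 1) → k} (hw : ∀ m ∈ T, x m = w m) (hnest : ∀ j, Nest δ fun m => w m j) :
    ∃ C κ : ℕ, ∀ n ∈ B, ∃ e ≤ q δ C κ n, GivenBy p F n e := by
  obtain ⟨R, _, _, π, h1, h2⟩ := exists_RI (IB k T B) (Sm hp x) (by
    rintro _ ⟨e, G, hG, hGp, rfl⟩ ⟨E, m0, hE, hz⟩
    obtain ⟨m, hm, hmT, hne⟩ := hrec E hE m0 e G hG hGp
    exact hne (hz m hm hmT))
  obtain ⟨j0, hj0⟩ := exists_X hx0 hdense
  have hsing : ∀ n ∈ B, ∀ u : ℕ → k, (∀ m, m + n ∈ T → u m = 0) → π u = 0 := fun n hn u hu =>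
    h1 u ⟨{n}, 0, by simpa using hn, fun m _ hm => hu m (hm n (Finset.mem_singleton_self n))⟩
  obtain ⟨C, κ, hC⟩ := aux (T := T) hF hx0 horb hj0 (exists_iter hF hdom hx0 hdense) π
    (fun u hu => by
      obtain ⟨m0, hm0⟩ := eventually_atTop.1 hu
      exact h1 u ⟨∅, m0, by simp, fun m hm _ => hm0 m hm⟩)
    (fun u hu => hsing 0 h0 u fun m hm => hu m hm)
    (fun e G hG => by
      constructor
      · intro h
        by_contra hGp
        exact h2 _ ⟨e, G, hG, hGp, rfl⟩ h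
      · intro hGp
        have h3 : (fun m => eval (x m) G) = 0 := funext ((hdense e G hG).2 hGp)
        rw [h3, map_zero]) hw (fam _ fun j => (hnest j).gr hδ)
  exact ⟨C, κ, fun n hn => hC n (hsing n hn)⟩

theorem iter_add (n i : ℕ) (j : Fin (N + 1)) :
    iter F (n + i) j = aeval (iter F n) (iter F i j) := by
  induction n with
  | zero =>
    rw [Nat.zero_add]
    change _ = aeval X (iter F i j)
    rw [aeval_X_left_apply]
  | succ n ih =>
    have h1 : iter F (n + 1 + i) j = aeval F (iter F (n + i) j) := by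
      rw [show n + 1 + i = (n + i) + 1 by omega]
      rfl
    rw [h1, ih, ← AlgHom.comp_apply, comp_aeval]
    rfl

theorem compose (hp : p.IsPrime) (hF : ∀ j, (F j).IsHomogeneous d)
    (hit : ∀ n, ∃ j, iter F n j ∉ p) {n e : ℕ} (h : GivenBy p F n e) (i : ℕ) :
    GivenBy p F (n + i) (e * d ^ i) := by
  obtain ⟨G, g1, ⟨a, ha⟩, g3⟩ := h
  let A := MvPolynomial (Fin (N + 1)) k ⧸ p
  let ev : MvPolynomial (Fin (N + 1)) k →ₐ[k] FractionRing A :=
    (IsScalarTower.toAlgHom k A (FractionRing A)).comp (Ideal.Quotient.mkₐ k p)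
  have hev : ∀ u, ev u = 0 ↔ u ∈ p := by
    intro u
    change algebraMap A (FractionRing A) (Ideal.Quotient.mk p u) = 0 ↔ _
    rw [← Ideal.Quotient.eq_zero_iff_mem]
    exact (injective_iff_map_eq_zero' _).1 (IsFractionRing.injective A (FractionRing A)) _
  obtain ⟨b, hb⟩ := hit n
  have hcr : ∀ i j, ev (G i) * ev (iter F n j) = ev (G j) * ev (iter F n i) := by
    intro i j
    rw [← sub_eq_zero, ← map_mul, ← map_mul, ← map_sub]
    exact (hev _).2 (g3 i j)
  have hb0 : ev (iter F n b) ≠ 0 := fun h => hb ((hev _).1 h)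
  have ha0 : ev (G a) ≠ 0 := fun h => ha ((hev _).1 h)
  have hGb : ev (G b) ≠ 0 := by
    intro h
    have h1 := hcr a b
    rw [h, zero_mul] at h1
    exact mul_ne_zero ha0 hb0 h1
  obtain ⟨c, hc⟩ : ∃ c, c = ev (G b) / ev (iter F n b) := ⟨_, rfl⟩
  have hc0 : c ≠ 0 := by rw [hc]; exact div_ne_zero hGb hb0
  have hGc : ∀ j, ev (G j) = c * ev (iter F n j) := by
    intro j
    rw [hc, div_mul_eq_mul_div, eq_div_iff hb0]
    exact hcr j b
  have hH : ∀ j, ev (aeval G (iter F i j)) = c ^ (d ^ i) * ev (iter F (n + i) j) := by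
    intro j
    have h1 : ev (aeval G (iter F i j)) = aeval (fun l => ev (G l)) (iter F i j) := by
      rw [← AlgHom.comp_apply, comp_aeval]
    have h2 : ev (iter F (n + i) j) = aeval (fun l => ev (iter F n l)) (iter F i j) := by
      rw [iter_add, ← AlgHom.comp_apply, comp_aeval]
    rw [h1, h2, ← aeval_scale (iter_hom hF i j), funext hGc]
  refine ⟨fun j => aeval G (iter F i j), fun j => (iter_hom hF i j).aeval G g1, ?_, fun u v => ?_⟩
  · obtain ⟨j, hj⟩ := hit (n + i)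
    refine ⟨j, fun h => hj ((hev _).1 ?_)⟩
    have h1 := (hev _).2 h
    rw [hH] at h1
    exact (mul_eq_zero.1 h1).resolve_left (pow_ne_zero _ hc0)
  · refine (hev _).1 ?_
    rw [map_sub, map_mul, map_mul, hH, hH]
    ring

end Pool.Agent.T6.H45.NT
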