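import Pool.Agent.T6.H45.NT.B

/-!
Dense orbits with nested coordinates at a set of times with bounded gaps.
-/

set_option autoImplicit false

namespace Pool.Agent.T6.H45.NT

open MvPolynomial Filter
open Pool.Agent.TH8.OR
open Pool.Agent.T6.H45.KN

variable {k : Type} [Field k] {N : ℕ}

variable {p : Ideal (MvPolynomial (Fin (N + 1)) k)}
  {F : Fin (N + 1) → MvPolynomial (Fin (N + 1)) k} {d : ℕ}

/-- the shift of the sequences -/
def shift (k : Type) [Field k] (i : ℕ) : (ℕ → k) →ₐ[k] (ℕ → k) where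
  toFun u := fun m => u (m + i)
  map_one' := rfl
  map_mul' _ _ := rfl
  map_zero' := rfl
  map_add' _ _ := rfl
  commutes' _ := rfl

theorem domn (hF : ∀ j, (F j).IsHomogeneous d)
    (hdom : ∀ (e : ℕ) (H : MvPolynomial (Fin (N + 1)) k), H.IsHomogeneous e →
      (aeval F H ∈ p ↔ H ∈ p)) (n : ℕ) : ∀ (c : ℕ) (H : MvPolynomial (Fin (N + 1)) k),
      H.IsHomogeneous c → H ∉ p → aeval (iter F n) H ∉ p := by
  induction n with
  | zero =>
    intro c H _ hHp
    change aeval X H ∉ p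
    rwa [aeval_X_left_apply]
  | succ n ih =>
    intro c H hH hHp
    have h1 : aeval (iter F (n + 1)) H = aeval F (aeval (iter F n) H) := by
      rw [← AlgHom.comp_apply, comp_aeval]
      rfl
    rw [h1]
    intro hcon
    exact ih c H hH hHp ((hdom _ _ (hH.aeval (iter F n) (iter_hom hF n))).1 hcon)

/-- values at the shifted orbit -/
theorem ker_shift (hF : ∀ j, (F j).IsHomogeneous d)
    (hdom : ∀ (e : ℕ) (H : MvPolynomial (Fin (N + 1)) k), H.IsHomogeneous e →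
      (aeval F H ∈ p ↔ H ∈ p)) {x : ℕ → Fin (N + 1) → k} (hx0 : ∀ m, x m ≠ 0)
    (horb : ∀ m i j, eval (x m) (F i) * x (m + 1) j = eval (x m) (F j) * x (m + 1) i)
    {R : Type} [Field R] [Algebra k R] (π : (ℕ → k) →ₐ[k] R)
    (hπ : ∀ (e : ℕ) (G : MvPolynomial (Fin (N + 1)) k), G.IsHomogeneous e → G ∉ p →
      π (fun m => eval (x m) G) ≠ 0) (i : ℕ) {e : ℕ} {G : MvPolynomial (Fin (N + 1)) k}
    (hG : G.IsHomogeneous e) (hGp : G ∉ p) : π (fun m => eval (x (m + i)) G) ≠ 0 := by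
  intro h0
  obtain ⟨l, hl⟩ := exists_ne hx0 π i
  have h1 : ∀ m, (eval (x m) (iter F i l)) ^ e * eval (x (m + i)) G =
      (x (m + i) l) ^ e * eval (x m) (aeval (iter F i) G) := by
    intro m
    have h2 : eval (x m) (aeval (iter F i) G) = eval (fun j => eval (x m) (iter F i j)) G :=
      eval_aeval_F _ _ _
    rw [h2, ← eval_scale hG, ← eval_scale hG]
    congr 2
    funext j
    rw [orb hF hx0 horb i m l j]
    ring
  have h3 : (fun m => (eval (x m) (iter F i l)) ^ e) * (fun m => eval (x (m + i)) G) =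
      (fun m => x (m + i) l) ^ e * fun m => eval (x m) (aeval (iter F i) G) := by
    funext m
    exact h1 m
  have h4 := congrArg π h3
  rw [map_mul, h0, mul_zero, map_mul, map_pow] at h4
  rcases mul_eq_zero.1 h4.symm with h5 | h5
  · exact hl (eq_zero_of_pow_eq_zero h5)
  · exact hπ _ _ (hG.aeval (iter F i) (iter_hom hF i)) (domn hF hdom i e G hG hGp) h5

/-- **Nested coordinates at a set of times with bounded gaps.** -/
theorem gaps0 (hp : p.IsPrime) (hF : ∀ j, (F j).IsHomogeneous d)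
    (hdom : ∀ (e : ℕ) (H : MvPolynomial (Fin (N + 1)) k), H.IsHomogeneous e →
      (aeval F H ∈ p ↔ H ∈ p)) {x : ℕ → Fin (N + 1) → k} (hx0 : ∀ m, x m ≠ 0)
    (horb : ∀ m i j, eval (x m) (F i) * x (m + 1) j = eval (x m) (F j) * x (m + 1) i)
    (hdense : ∀ (e : ℕ) (G : MvPolynomial (Fin (N + 1)) k), G.IsHomogeneous e →
      ((∀ m, eval (x m) G = 0) ↔ G ∈ p))
    {δ : ℕ} (hδ : 1 ≤ δ) {T : Set ℕ} {L : ℕ} (hT : ∀ m, ∃ i ≤ L, m + i ∈ T)
    {w : ℕ → Fin (N + 1) → k} (hw : ∀ m ∈ T, x m = w m) (hnest : ∀ j, Nest δ fun m => w m j) :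
    ∃ C κ : ℕ, ∀ n, ∃ i ≤ L, ∃ e ≤ q δ C κ (n + i), GivenBy p F (n + i) e := by
  classical
  by_cases hnc : ∀ m i j, x m i * x 0 j = x m j * x 0 i
  · exact ⟨0, 0, fun n => ⟨0, Nat.zero_le _, 0, Nat.zero_le _, point hF hx0 horb hdense hnc _⟩⟩
  · obtain ⟨R, _, _, π, h1, h2⟩ := exists_R (Sm hp x) (by
      rintro _ ⟨e, G, hG, hGp, rfl⟩
      exact tail hp hx0 hdense hnc hG hGp)
    obtain ⟨j0, hj0⟩ := exists_X hx0 hdense
    have hlarge : ∀ n, ∃ i ≤ L, ∀ u : ℕ → k, (∀ m, m + (n + i) ∈ T → u m = 0) → π u = 0 := by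
      intro n
      by_contra hcon
      push Not at hcon
      have hcon' : ∀ i : ℕ, ∃ u : ℕ → k, i ≤ L → (∀ m, m + (n + i) ∈ T → u m = 0) ∧ π u ≠ 0 := by
        intro i
        by_cases hi : i ≤ L
        · obtain ⟨u, hu⟩ := hcon i hi
          exact ⟨u, fun _ => hu⟩
        · exact ⟨0, fun h => absurd h hi⟩
      choose u hu using hcon'
      have h3 : ∏ i ∈ Finset.range (L + 1), u i = 0 := by
        funext m
        rw [Finset.prod_apply]
        obtain ⟨i, hi, hiT⟩ := hT (m + n)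
        refine Finset.prod_eq_zero (Finset.mem_range.2 (Nat.lt_succ_of_le hi)) ?_
        exact (hu i hi).1 m (by rwa [← Nat.add_assoc])
      have h4 : ∏ i ∈ Finset.range (L + 1), π (u i) = 0 := by rw [← map_prod, h3, map_zero]
      obtain ⟨i, hi, hi0⟩ := Finset.prod_eq_zero_iff.1 h4
      exact (hu i (Nat.le_of_lt_succ (Finset.mem_range.1 hi))).2 hi0
    obtain ⟨i0, _, hi0⟩ := hlarge 0
    obtain ⟨C, κ, hC⟩ := aux (T := T) hF hx0 horb hj0 (exists_iter hF hdom hx0 hdense)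
      (π.comp (shift k i0))
      (fun u hu => by
        refine h1 _ ?_
        exact (tendsto_add_atTop_nat i0).eventually hu)
      (fun u hu => hi0 _ fun m hm => hu _ (by rwa [Nat.zero_add] at hm))
      (fun e G hG => by
        constructor
        · intro h
          by_contra hGp
          exact ker_shift hF hdom hx0 horb π (fun e G hG hGp => h2 _ ⟨e, G, hG, hGp, rfl⟩) i0
            hG hGp h
        · intro hGp
          have h3 : (fun m => eval (x m) G) = 0 := funext ((hdense e G hG).2 hGp)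
          rw [h3, map_zero]) hw (fam _ fun j => (hnest j).gr hδ)
    refine ⟨C, κ, fun n => ?_⟩
    obtain ⟨i, hi, hl⟩ := hlarge (i0 + n)
    refine ⟨i, hi, hC (n + i) fun u hu => hl _ fun m hm => ?_⟩
    exact hu (m + i0) (by rwa [show m + i0 + (n + i) = m + (i0 + n + i) by ring])

theorem gaps (hp : p.IsPrime) (hF : ∀ j, (F j).IsHomogeneous d)
    (hdom : ∀ (e : ℕ) (H : MvPolynomial (Fin (N + 1)) k), H.IsHomogeneous e →
      (aeval F H ∈ p ↔ H ∈ p)) {x : ℕ → Fin (N + 1) → k} (hx0 : ∀ m, x m ≠ 0)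
    (horb : ∀ m i j, eval (x m) (F i) * x (m + 1) j = eval (x m) (F j) * x (m + 1) i)
    (hdense : ∀ (e : ℕ) (G : MvPolynomial (Fin (N + 1)) k), G.IsHomogeneous e →
      ((∀ m, eval (x m) G = 0) ↔ G ∈ p))
    {δ : ℕ} (hδ : 1 ≤ δ) {T : Set ℕ} {L : ℕ} (hT : ∀ m, ∃ i ≤ L, m + i ∈ T)
    {w : ℕ → Fin (N + 1) → k} (hw : ∀ m ∈ T, x m = w m) (hnest : ∀ j, Nest δ fun m => w m j) :
    ∃ C κ : ℕ, ∀ n, ∃ e ≤ C * (n + 1) ^ κ * δ ^ n, GivenBy p F n e := by
  obtain ⟨C, κ, hC⟩ := gaps0 hp hF hdom hx0 horb hdense hδ hT hw hnest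
  have hit := exists_iter hF hdom hx0 hdense
  refine ⟨(C + 1) * (d + 1) ^ L, κ, fun n => ?_⟩
  have hpos : 1 ≤ (n + 1) ^ κ * δ ^ n := Nat.mul_pos (by positivity) (by positivity)
  rcases Nat.lt_or_ge n L with hn | hn
  · refine ⟨d ^ n, ?_, iter F n, iter_hom hF n, hit n, fun i j => ?_⟩
    · have e1 : d ^ n ≤ (d + 1) ^ L :=
        (Nat.pow_le_pow_left (by omega) n).trans (Nat.pow_le_pow_right (by omega) hn.le)
      calc d ^ n ≤ (d + 1) ^ L := e1
        _ = 1 * (d + 1) ^ L * 1 := by ring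
        _ ≤ ((C + 1) * (d + 1) ^ L) * ((n + 1) ^ κ * δ ^ n) :=
          Nat.mul_le_mul (Nat.mul_le_mul_right _ (by omega)) hpos
        _ = _ := by ring
    · rw [mul_comm, sub_self]
      exact p.zero_mem
  · obtain ⟨i, hi, e, he, hg⟩ := hC (n - L)
    have h1 := compose hp hF hit hg (L - i)
    rw [show n - L + i + (L - i) = n by omega] at h1
    refine ⟨_, ?_, h1⟩
    have e1 : d ^ (L - i) ≤ (d + 1) ^ L :=
      (Nat.pow_le_pow_left (by omega) _).trans (Nat.pow_le_pow_right (by omega) (by omega))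
    have e2 : q δ C κ (n - L + i) ≤ C * (n + 1) ^ κ * δ ^ n := by
      unfold q
      exact Nat.mul_le_mul (Nat.mul_le_mul_left _ (Nat.pow_le_pow_left (by omega) _))
        (Nat.pow_le_pow_right hδ (by omega))
    calc e * d ^ (L - i) ≤ (C * (n + 1) ^ κ * δ ^ n) * (d + 1) ^ L :=
          Nat.mul_le_mul (he.trans e2) e1
      _ ≤ ((C + 1) * (n + 1) ^ κ * δ ^ n) * (d + 1) ^ L := by gcongr; omega
      _ = _ := by ring

end Pool.Agent.T6.H45.NT
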