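import Pool.Agent.T6.H45.NT.C

/-!
Dense orbits with nested coordinates at a piecewise syndetic set of times.
-/

set_option autoImplicit false

namespace Pool.Agent.T6.H45.NT

open MvPolynomial Filter
open Pool.Agent.TH8.OR
open Pool.Agent.T6.H45.KN

variable {k : Type} [Field k] {N : ℕ}

variable {p : Ideal (MvPolynomial (Fin (N + 1)) k)}
  {F : Fin (N + 1) → MvPolynomial (Fin (N + 1)) k} {d : ℕ}

/-- the iterates are given by proportional vectors -/
theorem iter_prop (hF : ∀ j, (F j).IsHomogeneous d) {x : ℕ → Fin (N + 1) → k} (hx0 : ∀ m, x m ≠ 0)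
    (horb : ∀ m i j, eval (x m) (F i) * x (m + 1) j = eval (x m) (F j) * x (m + 1) i)
    (hdef : ∀ m, ∃ j, eval (x m) (F j) ≠ 0) (n m : ℕ) :
    ∃ c : k, c ≠ 0 ∧ ∀ j, eval (x m) (iter F n j) = c * x (m + n) j := by
  induction n generalizing m with
  | zero => exact ⟨1, one_ne_zero, fun j => by simp [iter]⟩
  | succ n ih =>
    obtain ⟨c, hc, h⟩ := ih (m + 1)
    obtain ⟨a, ha⟩ := hdef m
    obtain ⟨b, hb⟩ := Function.ne_iff.1 (hx0 (m + 1))
    have hb' : x (m + 1) b ≠ 0 := hb
    have hFb : eval (x m) (F b) ≠ 0 := by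
      intro h0
      have h1 := horb m a b
      rw [h0, zero_mul] at h1
      exact mul_ne_zero ha hb' h1
    obtain ⟨c', hc'⟩ : ∃ c' : k, c' = eval (x m) (F b) / x (m + 1) b := ⟨_, rfl⟩
    have hc'0 : c' ≠ 0 := by rw [hc']; exact div_ne_zero hFb hb'
    have h1 : (fun j => eval (x m) (F j)) = fun j => c' * x (m + 1) j := by
      funext j
      rw [hc', div_mul_eq_mul_div, eq_div_iff hb', horb m j b]
    refine ⟨c' ^ (d ^ n) * c, mul_ne_zero (pow_ne_zero _ hc'0) hc, fun j => ?_⟩
    change eval (x m) (aeval F (iter F n j)) = _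
    rw [eval_aeval_F, h1, eval_scale (iter_hom hF n j), h j, show m + (n + 1) = m + 1 + n by ring,
      mul_assoc]

/-- the times at which a form does not vanish have bounded gaps -/
theorem syndetic (hp : p.IsPrime) (hF : ∀ j, (F j).IsHomogeneous d)
    {x : ℕ → Fin (N + 1) → k} (hx0 : ∀ m, x m ≠ 0)
    (horb : ∀ m i j, eval (x m) (F i) * x (m + 1) j = eval (x m) (F j) * x (m + 1) i)
    (hdef : ∀ m, ∃ j, eval (x m) (F j) ≠ 0)
    (hdense : ∀ (e : ℕ) (G : MvPolynomial (Fin (N + 1)) k), G.IsHomogeneous e →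
      ((∀ m, eval (x m) G = 0) ↔ G ∈ p))
    (hnc : ¬ ∀ m i j, x m i * x 0 j = x m j * x 0 i)
    {e : ℕ} {G : MvPolynomial (Fin (N + 1)) k} (hG : G.IsHomogeneous e) (hGp : G ∉ p) :
    ∃ r, ∀ m, ∃ i ≤ r, eval (x (m + i)) G ≠ 0 := by
  let J : ℕ →o Ideal (MvPolynomial (Fin (N + 1)) k) :=
    ⟨fun r => Ideal.span ((fun i => aeval (iter F i) G) '' Set.Iic r), fun a b hab =>
      Ideal.span_mono (Set.image_mono (Set.Iic_subset_Iic.2 hab))⟩
  obtain ⟨r, hr⟩ := monotone_stabilizes_iff_noetherian.2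
    (inferInstance : IsNoetherianRing (MvPolynomial (Fin (N + 1)) k)) J
  have hmem : aeval (iter F (r + 1)) G ∈ J r := by
    rw [hr (r + 1) (by omega)]
    exact Ideal.subset_span ⟨r + 1, Set.mem_Iic.2 le_rfl, rfl⟩
  have hval : ∀ m i, ∃ c : k, c ≠ 0 ∧
      eval (x m) (aeval (iter F i) G) = c * eval (x (m + i)) G := by
    intro m i
    obtain ⟨c, hc, h⟩ := iter_prop hF hx0 horb hdef i m
    refine ⟨c ^ e, pow_ne_zero _ hc, ?_⟩
    rw [eval_aeval_F, funext h, eval_scale hG]
  refine ⟨r, fun m => ?_⟩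
  by_contra hcon
  push Not at hcon
  have hall : ∀ s, ∀ i ≤ r + s, eval (x (m + i)) G = 0 := by
    intro s
    induction s with
    | zero => exact hcon
    | succ s ih =>
      intro i hi
      rcases Nat.lt_or_ge i (r + s + 1) with h | h
      · exact ih i (by omega)
      · have hi' : i = s + (r + 1) := by omega
        have h1 : ∀ u ∈ J r, eval (x (m + s)) u = 0 := by
          intro u hu
          refine Submodule.span_induction ?_ ?_ ?_ ?_ hu
          · rintro _ ⟨j, hj, rfl⟩
            obtain ⟨c, _, h⟩ := hval (m + s) j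
            rw [h, show m + s + j = m + (s + j) by ring, ih (s + j) (by
              have := Set.mem_Iic.1 hj
              omega), mul_zero]
          · exact map_zero _
          · intro a b _ _ ha hb
            rw [map_add, ha, hb, add_zero]
          · intro a b _ hb
            rw [smul_eq_mul, map_mul, hb, mul_zero]
        obtain ⟨c, hc, h2⟩ := hval (m + s) (r + 1)
        rw [h1 _ hmem] at h2
        rw [hi', ← Nat.add_assoc]
        exact (mul_eq_zero.1 h2.symm).resolve_left hc
  refine tail hp hx0 hdense hnc hG hGp (eventually_atTop.2 ⟨m, fun b hb => ?_⟩)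
  have := hall (b - m) (b - m) (by omega)
  rwa [show m + (b - m) = b by omega] at this

/-- the sequences which vanish at all large times `m` which start a window of some length in which
the gaps of `T` are at most `L` -/
def IW (k : Type) [Field k] (T : Set ℕ) (L : ℕ) : Ideal (ℕ → k) where
  carrier := {u | ∃ r : ℕ, ∀ m ≥ r, (∀ s ≤ r, ∃ i ≤ L, m + s + i ∈ T) → u m = 0}
  zero_mem' := ⟨0, fun _ _ _ => rfl⟩
  add_mem' := by
    rintro u v ⟨r, h⟩ ⟨r', h'⟩
    refine ⟨max r r', fun m hm hT => ?_⟩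
    rw [Pi.add_apply, h m (le_trans (le_max_left _ _) hm)
        fun s hs => hT s (le_trans hs (le_max_left _ _)),
      h' m (le_trans (le_max_right _ _) hm) fun s hs => hT s (le_trans hs (le_max_right _ _)),
      add_zero]
  smul_mem' := by
    rintro c u ⟨r, h⟩
    exact ⟨r, fun m hm hT => by rw [smul_eq_mul, Pi.mul_apply, h m hm hT, mul_zero]⟩

end Pool.Agent.T6.H45.NT
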