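import Pool.Agent.T6.H45.NT.D

/-!
Dense orbits with nested coordinates at a piecewise syndetic set of times: the growth.
-/

set_option autoImplicit false

namespace Pool.Agent.T6.H45.NT

open MvPolynomial Filter
open Pool.Agent.TH8.OR
open Pool.Agent.T6.H45.KN

variable {k : Type} [Field k] {N : ℕ}

variable {p : Ideal (MvPolynomial (Fin (N + 1)) k)}
  {F : Fin (N + 1) → MvPolynomial (Fin (N + 1)) k} {d : ℕ}

theorem pw0 (hp : p.IsPrime) (hF : ∀ j, (F j).IsHomogeneous d)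
    (hdom : ∀ (e : ℕ) (H : MvPolynomial (Fin (N + 1)) k), H.IsHomogeneous e →
      (aeval F H ∈ p ↔ H ∈ p)) {x : ℕ → Fin (N + 1) → k} (hx0 : ∀ m, x m ≠ 0)
    (horb : ∀ m i j, eval (x m) (F i) * x (m + 1) j = eval (x m) (F j) * x (m + 1) i)
    (hdef : ∀ m, ∃ j, eval (x m) (F j) ≠ 0)
    (hdense : ∀ (e : ℕ) (G : MvPolynomial (Fin (N + 1)) k), G.IsHomogeneous e →
      ((∀ m, eval (x m) G = 0) ↔ G ∈ p))
    {δ : ℕ} (hδ : 1 ≤ δ) {T : Set ℕ} {L : ℕ}
    (hT : ∀ r, ∃ a, ∀ s ≤ r, ∃ i ≤ L, a + s + i ∈ T)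
    {w : ℕ → Fin (N + 1) → k} (hw : ∀ m ∈ T, x m = w m) (hnest : ∀ j, Nest δ fun m => w m j) :
    ∃ C κ : ℕ, ∀ n, ∃ i ≤ L, ∃ e ≤ q δ C κ (n + i), GivenBy p F (n + i) e := by
  classical
  by_cases hnc : ∀ m i j, x m i * x 0 j = x m j * x 0 i
  · exact ⟨0, 0, fun n => ⟨0, Nat.zero_le _, 0, Nat.zero_le _, point hF hx0 horb hdense hnc _⟩⟩
  · obtain ⟨R, _, _, π, h1, h2⟩ := exists_RI (IW k T L) (Sm hp x) (by
      rintro _ ⟨e, G, hG, hGp, rfl⟩ ⟨r, hz⟩
      obtain ⟨ρ, hρ⟩ := syndetic hp hF hx0 horb hdef hdense hnc hG hGp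
      obtain ⟨a, ha⟩ := hT (r + ρ + r)
      obtain ⟨i, hi, hne⟩ := hρ (a + r)
      refine hne (hz (a + r + i) (by omega) fun s hs => ?_)
      obtain ⟨l, hl, hlT⟩ := ha (r + i + s) (by omega)
      exact ⟨l, hl, by rwa [show a + r + i + s + l = a + (r + i + s) + l by ring]⟩)
    obtain ⟨j0, hj0⟩ := exists_X hx0 hdense
    have hlarge : ∀ n, ∃ i ≤ L, ∀ u : ℕ → k, (∀ m, m + (n + i) ∈ T → u m = 0) → π u = 0 := by
      intro n
      by_contra hcon
      push Not at hcon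
      have hcon' : ∀ i : ℕ, ∃ u : ℕ → k, i ≤ L → (∀ m, m + (n + i) ∈ T → u m = 0) ∧ π u ≠ 0 := by
        intro i
        by_cases hi : i ≤ L
        · obtain ⟨u, hu⟩ := hcon i hi
          exact ⟨u, fun _ => hu⟩
        · exact ⟨0, fun h => absurd h hi⟩
      choose u hu using hcon'
      have h3 : ∏ i ∈ Finset.range (L + 1), u i ∈ IW k T L := by
        refine ⟨n, fun m _ hm => ?_⟩
        rw [Finset.prod_apply]
        obtain ⟨i, hi, hiT⟩ := hm n le_rfl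
        refine Finset.prod_eq_zero (Finset.mem_range.2 (Nat.lt_succ_of_le hi)) ?_
        exact (hu i hi).1 m (by rwa [← Nat.add_assoc])
      have h4 : ∏ i ∈ Finset.range (L + 1), π (u i) = 0 := by rw [← map_prod, h1 _ h3]
      obtain ⟨i, hi, hi0⟩ := Finset.prod_eq_zero_iff.1 h4
      exact (hu i (Nat.le_of_lt_succ (Finset.mem_range.1 hi))).2 hi0
    obtain ⟨i0, _, hi0⟩ := hlarge 0
    obtain ⟨C, κ, hC⟩ := aux (T := T) hF hx0 horb hj0 (exists_iter hF hdom hx0 hdense)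
      (π.comp (shift k i0))
      (fun u hu => by
        obtain ⟨m0, hm0⟩ := eventually_atTop.1 hu
        exact h1 _ ⟨m0, fun m hm _ => hm0 (m + i0) (by omega)⟩)
      (fun u hu => hi0 _ fun m hm => hu _ (by rwa [Nat.zero_add] at hm))
      (fun e G hG => by
        constructor
        · intro h
          by_contra hGp
          exact ker_shift hF hdom hx0 horb π (fun e G hG hGp => h2 _ ⟨e, G, hG, hGp, rfl⟩) i0
            hG hGp h
        · intro hGp
          have h3 : (fun m => eval (x m) G) = 0 := funext ((hdense e G hG).2 hGp)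
          rw [h3, map_zero]) hw (fam _ fun j => (hnest j).gr hδ)
    refine ⟨C, κ, fun n => ?_⟩
    obtain ⟨i, hi, hl⟩ := hlarge (i0 + n)
    refine ⟨i, hi, hC (n + i) fun u hu => hl _ fun m hm => ?_⟩
    exact hu (m + i0) (by rwa [show m + i0 + (n + i) = m + (i0 + n + i) by ring])

theorem allN (hp : p.IsPrime) (hF : ∀ j, (F j).IsHomogeneous d)
    (hit : ∀ n, ∃ j, iter F n j ∉ p) {δ L C κ : ℕ} (hδ : 1 ≤ δ)
    (hC : ∀ n, ∃ i ≤ L, ∃ e ≤ q δ C κ (n + i), GivenBy p F (n + i) e) :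
    ∃ C κ : ℕ, ∀ n, ∃ e ≤ C * (n + 1) ^ κ * δ ^ n, GivenBy p F n e := by
  refine ⟨(C + 1) * (d + 1) ^ L, κ, fun n => ?_⟩
  have hpos : 1 ≤ (n + 1) ^ κ * δ ^ n := Nat.mul_pos (by positivity) (by positivity)
  rcases Nat.lt_or_ge n L with hn | hn
  · refine ⟨d ^ n, ?_, iter F n, iter_hom hF n, hit n, fun i j => ?_⟩
    · have e1 : d ^ n ≤ (d + 1) ^ L :=
        (Nat.pow_le_pow_left (by omega) n).trans (Nat.pow_le_pow_right (by omega) hn.le)
      calc d ^ n ≤ (d + 1) ^ L := e1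
        _ = 1 * (d + 1) ^ L * 1 := by ring
        _ ≤ ((C + 1) * (d + 1) ^ L) * ((n + 1) ^ κ * δ ^ n) :=
          Nat.mul_le_mul (Nat.mul_le_mul_right _ (by omega)) hpos
        _ = _ := by ring
    · rw [mul_comm, sub_self]
      exact p.zero_mem
  · obtain ⟨i, hi, e, he, hg⟩ := hC (n - L)
    have h1 := compose hp hF hit hg (L - i)
    rw [show n - L + i + (L - i) = n by omega] at h1
    refine ⟨_, ?_, h1⟩
    have e1 : d ^ (L - i) ≤ (d + 1) ^ L :=
      (Nat.pow_le_pow_left (by omega) _).trans (Nat.pow_le_pow_right (by omega) (by omega))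
    have e2 : q δ C κ (n - L + i) ≤ C * (n + 1) ^ κ * δ ^ n := by
      unfold q
      exact Nat.mul_le_mul (Nat.mul_le_mul_left _ (Nat.pow_le_pow_left (by omega) _))
        (Nat.pow_le_pow_right hδ (by omega))
    calc e * d ^ (L - i) ≤ (C * (n + 1) ^ κ * δ ^ n) * (d + 1) ^ L :=
          Nat.mul_le_mul (he.trans e2) e1
      _ ≤ ((C + 1) * (n + 1) ^ κ * δ ^ n) * (d + 1) ^ L := by gcongr; omega
      _ = _ := by ring

end Pool.Agent.T6.H45.NT
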