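import Pool.Agent.T6.H45.NT.E
import Pool.Agent.T6.H45.DR.Cl3

/-!
Surjective endomorphisms with a dense orbit with nested coordinates at a set of times with bounded
gaps: the first dynamical degree.
-/

set_option autoImplicit false

namespace Pool.Agent.T6.H45.NT

open MvPolynomial Filter
open Pool.Agent.TH8.OR
open Pool.Agent.T6.H45.KN (Nest)
open Pool.Agent.T6.H45.DR
open Pool.Agent.H251R6.SDD Pool.Agent.T6.H19.KS

section

variable {k : Type} [Field k] {N : ℕ}
variable {p : Ideal (MvPolynomial (Fin (N + 1)) k)}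

theorem hG_le (hp : p.IsPrime) {F G : Fin (N + 1) → MvPolynomial (Fin (N + 1)) k} {e E : ℕ}
    (hF : ∀ i, (F i).IsHomogeneous e) (hG' : ∀ i, (G i).IsHomogeneous E) (hne : ∃ i, G i ∉ p)
    (hrel : ∀ i j, F i * G j - F j * G i ∈ p) (b a : ℕ) : hG p F b a ≤ hX p (b + E * a) := by
  have hle : (weightedHomogeneousSubmodule k (biWeight (Fin (N + 1))) (b, a)).map
      ((Ideal.Quotient.mkₐ k p).comp (aeval (Sum.elim X G))).toLinearMap ≤
      (homogeneousSubmodule (Fin (N + 1)) k (b + E * a)).map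
        (Ideal.Quotient.mkₐ k p).toLinearMap := by
    rintro _ ⟨Q, hQ, rfl⟩
    exact ⟨aeval (Sum.elim X G) Q, sb_hom hG' hQ, rfl⟩
  have hfd : FiniteDimensional k ((homogeneousSubmodule (Fin (N + 1)) k (b + E * a)).map
      (Ideal.Quotient.mkₐ k p).toLinearMap) :=
    Module.Finite.iff_fg.2 (Submodule.FG.map _ (homogeneousSubmodule_fg (σ := Fin (N + 1)) k _))
  have hfd2 := Submodule.finiteDimensional_of_le hle
  refine (rank_le_of_ker _ _ _ hfd2 fun Q hQ hQ0 => ?_).trans (Submodule.finrank_mono hle)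
  rw [AlgHom.toLinearMap_apply, AlgHom.comp_apply, Ideal.Quotient.mkₐ_eq_mk,
    Ideal.Quotient.eq_zero_iff_mem] at hQ0 ⊢
  let A := MvPolynomial (Fin (N + 1)) k ⧸ p
  let ev : MvPolynomial (Fin (N + 1)) k →ₐ[k] FractionRing A :=
    (IsScalarTower.toAlgHom k A (FractionRing A)).comp (Ideal.Quotient.mkₐ k p)
  have hev : ∀ u, ev u = 0 ↔ u ∈ p := by
    intro u
    change algebraMap A (FractionRing A) (Ideal.Quotient.mk p u) = 0 ↔ _
    rw [← Ideal.Quotient.eq_zero_iff_mem]
    exact (injective_iff_map_eq_zero' _).1 (IsFractionRing.injective A (FractionRing A)) _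
  have hae : ∀ H, aeval (fun j => ev (X j)) H = ev H := fun H => by
    conv_rhs => rw [aeval_unique ev]
    rfl
  obtain ⟨i0, hi0⟩ := hne
  refine ker_le (ξ := fun j => ev (X j)) (η := fun j => ev (G j)) hF
    ⟨i0, fun h => hi0 ((hev _).1 h)⟩ (fun e H _ => by rw [hae, hev]) (fun i j => ?_) hQ ?_
  · rw [hae, hae, ← sub_eq_zero, ← map_mul, ← map_mul, ← map_sub]
    exact (hev _).2 (hrel i j)
  · have h1 : aeval (Sum.elim (fun j => ev (X j)) fun j => ev (G j)) Q =
        ev (aeval (Sum.elim X G) Q) := by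
      rw [← AlgHom.comp_apply, comp_aeval]
      congr 2
      funext j
      rcases j with j | j <;> rfl
    rw [h1]
    exact (hev _).2 hQ0

end

variable {K k : Type} [Field K] [Field k] [Algebra K k] [Infinite k] {N : ℕ}
  {V : Set (PSpace k (Fin (N + 1)))} {f : PSpace k (Fin (N + 1)) → PSpace k (Fin (N + 1))}
  {x0 : PSpace k (Fin (N + 1))}

/-- **Nested coordinates at a set of times with bounded gaps: the first dynamical degree.** -/
theorem endo (hVK : IsVarietyOver K V) (hf : IsSurjectiveEndomorphism K V f) (hx : x0 ∈ V)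
    (hdense : ∀ Z, IsZariskiClosed Z → (∀ n, f^[n] x0 ∈ Z) → V ⊆ Z)
    {T : Set ℕ} {L : ℕ} (hT : ∀ m, ∃ i ≤ L, m + i ∈ T) {w : ℕ → Fin (N + 1) → k}
    (hw : ∀ m ∈ T, ∃ h : w m ≠ 0, f^[m] x0 = Projectivization.mk k (w m) h)
    {D : ℕ} (hD : 1 ≤ D) (hnest : ∀ j, Nest D fun m => w m j)
    {δ : ℝ} (hδ : IsFirstDynamicalDegree V f δ) : δ ≤ D := by
  classical
  have hV := hVK.2
  have hloc := locRep_of_endo hf
  have hp := prime_cone hV
  obtain ⟨x, hxT, hx'⟩ : ∃ x : ℕ → Fin (N + 1) → k, (∀ m ∈ T, x m = w m) ∧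
      ∀ m, ∃ h : x m ≠ 0, f^[m] x0 = Projectivization.mk k (x m) h := by
    refine ⟨fun m => if m ∈ T then w m else (f^[m] x0).rep, fun m hm => if_pos hm, fun m => ?_⟩
    by_cases hm : m ∈ T
    · simp only [if_pos hm]
      exact hw m hm
    · simp only [if_neg hm]
      exact ⟨(f^[m] x0).rep_nonzero, (f^[m] x0).mk_rep.symm⟩
  have hx0' : ∀ m, x m ≠ 0 := fun m => (hx' m).1
  have hden := cd1 hV hloc hx hdense hx'
  have htup : ∀ n, ∃ (e : ℕ) (F : Fin (N + 1) → MvPolynomial (Fin (N + 1)) K),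
      IsTuple K V (f^[n]) e F ∧ ∃ i, aeval x0.rep (F i) ≠ 0 := fun n =>
    (locRep_iterate hloc n).2 x0 hx
  obtain ⟨d, F, hF, i1, hi1⟩ := htup 1
  have hFh : ∀ i, (map (algebraMap K k) (F i)).IsHomogeneous d := fun i => (hF.1 i).map _
  have horb := fun m i j => cd3 hloc hx hx' hF m i j
  have hdom : ∀ (e : ℕ) (H : MvPolynomial (Fin (N + 1)) k), H.IsHomogeneous e →
      (aeval (fun i => map (algebraMap K k) (F i)) H ∈ vanishingIdeal k (cone V) ↔
        H ∈ vanishingIdeal k (cone V)) := by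
    intro e H hH
    constructor
    · intro h
      by_contra hcon
      exact cd4 hV hloc hf.1 hF ⟨x0, hx, i1, hi1⟩ hH hcon h
    · intro h
      refine (hden _ _ (hH.aeval _ hFh)).1 fun m => ?_
      rw [eval_aeval_F]
      obtain ⟨b, hb⟩ := Function.ne_iff.1 (hx0' (m + 1))
      have hb' : x (m + 1) b ≠ 0 := hb
      have h1 : (fun j => eval (x m) (map (algebraMap K k) (F j))) = fun j =>
          (eval (x m) (map (algebraMap K k) (F b)) / x (m + 1) b) * x (m + 1) j := by
        funext j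
        rw [div_mul_eq_mul_div, eq_div_iff hb', horb m j b]
      rw [h1, eval_scale hH, (hden e H hH).2 h (m + 1), mul_zero]
  obtain ⟨C, κ, hC⟩ := gaps hp hFh hdom hx0' horb hden hD hT hxT hnest
  obtain ⟨t, A, hA, ht⟩ := exists_t hV hloc hδ
  refine fdd_le hδ (D := D) (C2 := t.factorial * A * 3 ^ t * (C + 1) + 1) (κ := κ) hD
    fun n hn Nq hNq => ?_
  obtain ⟨e, he, G, g1, g2, g3⟩ := hC n
  obtain ⟨en, Fn, hFn, i, hi⟩ := htup n
  have hb : ∀ b a, graphHilbert V (f^[n]) b a ≤ A * (b + (e + 1) * a + 1) ^ t := by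
    intro b a
    refine ((gh_le hV (locRep_iterate hloc n) hFn ⟨x0, hx, i, hi⟩ b a).trans
      (hG_le hp (fun i => (hFn.1 i).map _) g1 g2 (fun u v => ?_) b a)).trans ((hA _).trans ?_)
    · obtain ⟨l, hl⟩ := exists_iter hFh hdom hx0' hden n
      have h2 : ∀ u v, map (algebraMap K k) (Fn u) *
          iter (fun i => map (algebraMap K k) (F i)) n v - map (algebraMap K k) (Fn v) *
          iter (fun i => map (algebraMap K k) (F i)) n u ∈ vanishingIdeal k (cone V) := by
        intro u v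
        refine (hden (en + d ^ n) _ ((((hFn.1 u).map _).mul (iter_hom hFh n v)).sub
          (((hFn.1 v).map _).mul (iter_hom hFh n u)))).1 fun m => ?_
        rw [map_sub, map_mul, map_mul]
        obtain ⟨b, hb⟩ := Function.ne_iff.1 (hx0' (m + n))
        have hb' : x (m + n) b ≠ 0 := hb
        have e1 := cd3 hloc hx hx' hFn m u b
        have e2 := cd3 hloc hx hx' hFn m v b
        have e3 := orb hFh hx0' horb n m u b
        have e4 := orb hFh hx0' horb n m v b
        have e5 : (eval (x m) (map (algebraMap K k) (Fn u)) *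
            eval (x m) (iter (fun i => map (algebraMap K k) (F i)) n v) -
            eval (x m) (map (algebraMap K k) (Fn v)) *
            eval (x m) (iter (fun i => map (algebraMap K k) (F i)) n u)) *
            (x (m + n) b * x (m + n) b) = 0 := by
          linear_combination
            (eval (x m) (iter (fun i => map (algebraMap K k) (F i)) n v) * x (m + n) b) * e1
            + (eval (x m) (map (algebraMap K k) (Fn b)) * x (m + n) u) * e4
            - (eval (x m) (iter (fun i => map (algebraMap K k) (F i)) n u) * x (m + n) b) * e2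
            - (eval (x m) (map (algebraMap K k) (Fn b)) * x (m + n) v) * e3
        exact (mul_eq_zero.1 e5).resolve_right (mul_ne_zero hb' hb')
      refine (hp.mem_or_mem (?_ : iter (fun i => map (algebraMap K k) (F i)) n l * _ ∈ _)).resolve_left
        hl
      have h3 : iter (fun i => map (algebraMap K k) (F i)) n l *
          (map (algebraMap K k) (Fn u) * G v - map (algebraMap K k) (Fn v) * G u) =
          map (algebraMap K k) (Fn u) * (G v * iter (fun i => map (algebraMap K k) (F i)) n l -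
            G l * iter (fun i => map (algebraMap K k) (F i)) n v) -
          map (algebraMap K k) (Fn v) * (G u * iter (fun i => map (algebraMap K k) (F i)) n l -
            G l * iter (fun i => map (algebraMap K k) (F i)) n u) +
          G l * (map (algebraMap K k) (Fn u) * iter (fun i => map (algebraMap K k) (F i)) n v -
            map (algebraMap K k) (Fn v) * iter (fun i => map (algebraMap K k) (F i)) n u) := by
        ring
      rw [h3]
      exact Ideal.add_mem _ (Ideal.sub_mem _ (Ideal.mul_mem_left _ _ (g3 v l))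
        (Ideal.mul_mem_left _ _ (g3 u l))) (Ideal.mul_mem_left _ _ (h2 u v))
    · refine Nat.mul_le_mul_left _ (Nat.pow_le_pow_left ?_ _)
      nlinarith [Nat.zero_le a]
  have h1 := inter_le (E := e + 1) (by omega) hb (ht n hn) hNq
  have h2 : (Nq : ℝ) ≤ t.factorial * A * 3 ^ t * ((e : ℝ) + 1) + 1 := by
    have := (Rat.cast_le (K := ℝ)).2 h1
    push_cast at this
    exact this
  have h3 : (1 : ℝ) ≤ ((n : ℝ) + 1) ^ κ * (D : ℝ) ^ n := by
    have e1 : (1 : ℝ) ≤ ((n : ℝ) + 1) ^ κ := one_le_pow₀ (by linarith [Nat.cast_nonneg (α := ℝ) n])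
    have e2 : (1 : ℝ) ≤ (D : ℝ) ^ n := one_le_pow₀ (by exact_mod_cast hD)
    nlinarith
  have h4 : (e : ℝ) ≤ C * (((n : ℝ) + 1) ^ κ * (D : ℝ) ^ n) := by
    have : (e : ℝ) ≤ ((C * (n + 1) ^ κ * D ^ n : ℕ) : ℝ) := by exact_mod_cast he
    push_cast at this
    linarith
  have h5 : (0 : ℝ) ≤ t.factorial * A * 3 ^ t := by positivity
  calc (Nq : ℝ) ≤ t.factorial * A * 3 ^ t * ((e : ℝ) + 1) + 1 := h2
    _ ≤ t.factorial * A * 3 ^ t * (C * (((n : ℝ) + 1) ^ κ * (D : ℝ) ^ n) +
          ((n : ℝ) + 1) ^ κ * (D : ℝ) ^ n) + ((n : ℝ) + 1) ^ κ * (D : ℝ) ^ n := by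
        gcongr
    _ = _ := by push_cast; ring

end Pool.Agent.T6.H45.NT
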