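import Pool.Agent.T6.H45.NT.G

/-!
Piecewise syndetic sets of times, for maps which are defined at all points of the orbit.
-/

set_option autoImplicit false

namespace Pool.Agent.T6.H45.NT

open MvPolynomial Filter
open Pool.Agent.TH8.OR
open Pool.Agent.T6.H45.KN

section

variable {k : Type} [Field k] {N : ℕ}

variable {p : Ideal (MvPolynomial (Fin (N + 1)) k)}
  {F : Fin (N + 1) → MvPolynomial (Fin (N + 1)) k} {d : ℕ}

/-- the `n`-th iterate is given along the orbit by the forms `H j` of degree `c` -/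
def Rep (x : ℕ → Fin (N + 1) → k) (n c : ℕ) (H : Fin (N + 1) → MvPolynomial (Fin (N + 1)) k) : Prop :=
  (∀ j, (H j).IsHomogeneous c) ∧
    ∀ m i j, eval (x m) (H i) * x (m + n) j = eval (x m) (H j) * x (m + n) i

theorem rep_val {x : ℕ → Fin (N + 1) → k} (hx0 : ∀ m, x m ≠ 0) {n c : ℕ}
    {H : Fin (N + 1) → MvPolynomial (Fin (N + 1)) k} (h : Rep x n c H) (m : ℕ) :
    ∃ a : k, (∀ j, eval (x m) (H j) = a * x (m + n) j) ∧ ∀ (e : ℕ)
      (G : MvPolynomial (Fin (N + 1)) k), G.IsHomogeneous e →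
      eval (x m) (aeval H G) = a ^ e * eval (x (m + n)) G := by
  obtain ⟨b, hb⟩ := Function.ne_iff.1 (hx0 (m + n))
  have hb' : x (m + n) b ≠ 0 := hb
  have h1 : ∀ j, eval (x m) (H j) = (eval (x m) (H b) / x (m + n) b) * x (m + n) j := by
    intro j
    rw [div_mul_eq_mul_div, eq_div_iff hb', h.2 m j b]
  refine ⟨_, h1, fun e G hG => ?_⟩
  rw [eval_aeval_F, funext h1, eval_scale hG]

/-- representations of the iterates from representations of the map -/
theorem rep_iter {x : ℕ → Fin (N + 1) → k} (hx0 : ∀ m, x m ≠ 0)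
    (hdef : ∀ m, ∃ c H, Rep x 1 c H ∧ ∃ j, eval (x m) (H j) ≠ 0) (n : ℕ) :
    ∀ m, ∃ c H, Rep x n c H ∧ ∃ j, eval (x m) (H j) ≠ 0 := by
  induction n with
  | zero =>
    intro m
    obtain ⟨j, hj⟩ := Function.ne_iff.1 (hx0 m)
    refine ⟨1, X, ⟨fun j => isHomogeneous_X k j, fun m i j => ?_⟩, j, ?_⟩
    · rw [eval_X, eval_X, Nat.add_zero]
      ring
    · rw [eval_X]
      exact hj
  | succ n ih =>
    intro m
    obtain ⟨c, H, hH, j, hj⟩ := hdef m
    obtain ⟨c', P, hP, l, hl⟩ := ih (m + 1)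
    refine ⟨c * c', fun i => aeval H (P i), ⟨fun i => (hP.1 i).aeval H hH.1, fun m' i j => ?_⟩, l, ?_⟩
    · obtain ⟨a, _, ha⟩ := rep_val hx0 hH m'
      rw [ha _ _ (hP.1 i), ha _ _ (hP.1 j), show m' + (n + 1) = m' + 1 + n by ring, mul_assoc,
        hP.2 (m' + 1) i j, mul_assoc]
    · obtain ⟨a, ha1, ha⟩ := rep_val hx0 hH m
      rw [ha _ _ (hP.1 l)]
      refine mul_ne_zero (pow_ne_zero _ fun h0 => hj ?_) hl
      rw [ha1, h0, zero_mul]

/-- the polynomials which vanish at the times in `S` -/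
def VI (x : ℕ → Fin (N + 1) → k) (S : Set ℕ) : Ideal (MvPolynomial (Fin (N + 1)) k) where
  carrier := {H | ∀ m ∈ S, eval (x m) H = 0}
  zero_mem' := fun _ _ => map_zero _
  add_mem' := fun ha hb m hm => by rw [map_add, ha m hm, hb m hm, add_zero]
  smul_mem' := fun c u hu m hm => by rw [smul_eq_mul, map_mul, hu m hm, mul_zero]

/-- the times at which a form does not vanish have bounded gaps -/
theorem syndetic2 (hp : p.IsPrime) {x : ℕ → Fin (N + 1) → k} (hx0 : ∀ m, x m ≠ 0)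
    (hdef : ∀ n m, ∃ c H, Rep x n c H ∧ ∃ j, eval (x m) (H j) ≠ 0)
    (hdense : ∀ (e : ℕ) (G : MvPolynomial (Fin (N + 1)) k), G.IsHomogeneous e →
      ((∀ m, eval (x m) G = 0) ↔ G ∈ p))
    (hnc : ¬ ∀ m i j, x m i * x 0 j = x m j * x 0 i)
    {e : ℕ} {G : MvPolynomial (Fin (N + 1)) k} (hG : G.IsHomogeneous e) (hGp : G ∉ p) :
    ∃ r, ∀ m, ∃ i ≤ r, eval (x (m + i)) G ≠ 0 := by
  let Z : ℕ → Set ℕ := fun r => {m | ∀ i ≤ r, eval (x (m + i)) G = 0}
  let J : ℕ →o Ideal (MvPolynomial (Fin (N + 1)) k) :=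
    ⟨fun r => VI x (Z r), fun a b hab H hH m hm => hH m fun i hi => hm i (hi.trans hab)⟩
  obtain ⟨r, hr⟩ := monotone_stabilizes_iff_noetherian.2
    (inferInstance : IsNoetherianRing (MvPolynomial (Fin (N + 1)) k)) J
  have hstep : ∀ m ∈ Z r, eval (x (m + (r + 1))) G = 0 := by
    intro m hm
    obtain ⟨c, H, hH, j, hj⟩ := hdef (r + 1) m
    have h1 : aeval H G ∈ J (r + 1) := by
      intro m' hm'
      obtain ⟨a, _, ha⟩ := rep_val hx0 hH m'
      rw [ha _ _ hG, hm' (r + 1) le_rfl, mul_zero]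
    rw [← hr (r + 1) (by omega)] at h1
    have h2 : eval (x m) (aeval H G) = 0 := h1 m hm
    obtain ⟨a, ha1, ha⟩ := rep_val hx0 hH m
    rw [ha _ _ hG] at h2
    refine (mul_eq_zero.1 h2).resolve_left (pow_ne_zero _ fun h0 => hj ?_)
    rw [ha1, h0, zero_mul]
  refine ⟨r, fun m => ?_⟩
  by_contra hcon
  push Not at hcon
  have hall : ∀ s, m + s ∈ Z r := by
    intro s
    induction s with
    | zero => exact hcon
    | succ s ih =>
      intro i hi
      rcases Nat.lt_or_ge i r with h | h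
      · have := ih (i + 1) (by omega)
        rwa [show m + s + (i + 1) = m + (s + 1) + i by ring] at this
      · have h1 : i = r := by omega
        have := hstep _ ih
        rwa [show m + s + (r + 1) = m + (s + 1) + i by omega] at this
  refine tail hp hx0 hdense hnc hG hGp (eventually_atTop.2 ⟨m, fun b hb => ?_⟩)
  have := hall (b - m) 0 (Nat.zero_le _)
  rwa [show m + (b - m) + 0 = b by omega] at this

theorem pw1 (hp : p.IsPrime) (hF : ∀ j, (F j).IsHomogeneous d)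
    (hdom : ∀ (e : ℕ) (H : MvPolynomial (Fin (N + 1)) k), H.IsHomogeneous e →
      (aeval F H ∈ p ↔ H ∈ p)) {x : ℕ → Fin (N + 1) → k} (hx0 : ∀ m, x m ≠ 0)
    (horb : ∀ m i j, eval (x m) (F i) * x (m + 1) j = eval (x m) (F j) * x (m + 1) i)
    (hdef : ∀ n m, ∃ c H, Rep x n c H ∧ ∃ j, eval (x m) (H j) ≠ 0)
    (hdense : ∀ (e : ℕ) (G : MvPolynomial (Fin (N + 1)) k), G.IsHomogeneous e →
      ((∀ m, eval (x m) G = 0) ↔ G ∈ p))
    {δ : ℕ} (hδ : 1 ≤ δ) {T : Set ℕ} {L : ℕ}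
    (hT : ∀ r, ∃ a, ∀ s ≤ r, ∃ i ≤ L, a + s + i ∈ T)
    {w : ℕ → Fin (N + 1) → k} (hw : ∀ m ∈ T, x m = w m) (hnest : ∀ j, Nest δ fun m => w m j) :
    ∃ C κ : ℕ, ∀ n, ∃ e ≤ C * (n + 1) ^ κ * δ ^ n, GivenBy p F n e := by
  classical
  by_cases hnc : ∀ m i j, x m i * x 0 j = x m j * x 0 i
  · exact ⟨0, 0, fun n => ⟨0, Nat.zero_le _, point hF hx0 horb hdense hnc _⟩⟩
  · refine (?_ : ∃ C κ : ℕ, ∀ n, ∃ i ≤ L, ∃ e ≤ q δ C κ (n + i), GivenBy p F (n + i) e).elim
      fun C hC => hC.elim fun κ hC => allN hp hF (exists_iter hF hdom hx0 hdense) hδ hC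
    obtain ⟨R, _, _, π, h1, h2⟩ := exists_RI (IW k T L) (Sm hp x) (by
      rintro _ ⟨e, G, hG, hGp, rfl⟩ ⟨r, hz⟩
      obtain ⟨ρ, hρ⟩ := syndetic2 hp hx0 hdef hdense hnc hG hGp
      obtain ⟨a, ha⟩ := hT (r + ρ + r)
      obtain ⟨i, hi, hne⟩ := hρ (a + r)
      refine hne (hz (a + r + i) (by omega) fun s hs => ?_)
      obtain ⟨l, hl, hlT⟩ := ha (r + i + s) (by omega)
      exact ⟨l, hl, by rwa [show a + r + i + s + l = a + (r + i + s) + l by ring]⟩)
    obtain ⟨j0, hj0⟩ := exists_X hx0 hdense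
    have hlarge : ∀ n, ∃ i ≤ L, ∀ u : ℕ → k, (∀ m, m + (n + i) ∈ T → u m = 0) → π u = 0 := by
      intro n
      by_contra hcon
      push Not at hcon
      have hcon' : ∀ i : ℕ, ∃ u : ℕ → k, i ≤ L → (∀ m, m + (n + i) ∈ T → u m = 0) ∧ π u ≠ 0 := by
        intro i
        by_cases hi : i ≤ L
        · obtain ⟨u, hu⟩ := hcon i hi
          exact ⟨u, fun _ => hu⟩
        · exact ⟨0, fun h => absurd h hi⟩
      choose u hu using hcon'
      have h3 : ∏ i ∈ Finset.range (L + 1), u i ∈ IW k T L := by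
        refine ⟨n, fun m _ hm => ?_⟩
        rw [Finset.prod_apply]
        obtain ⟨i, hi, hiT⟩ := hm n le_rfl
        refine Finset.prod_eq_zero (Finset.mem_range.2 (Nat.lt_succ_of_le hi)) ?_
        exact (hu i hi).1 m (by rwa [← Nat.add_assoc])
      have h4 : ∏ i ∈ Finset.range (L + 1), π (u i) = 0 := by rw [← map_prod, h1 _ h3]
      obtain ⟨i, hi, hi0⟩ := Finset.prod_eq_zero_iff.1 h4
      exact (hu i (Nat.le_of_lt_succ (Finset.mem_range.1 hi))).2 hi0
    obtain ⟨i0, _, hi0⟩ := hlarge 0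
    obtain ⟨C, κ, hC⟩ := aux (T := T) hF hx0 horb hj0 (exists_iter hF hdom hx0 hdense)
      (π.comp (shift k i0))
      (fun u hu => by
        obtain ⟨m0, hm0⟩ := eventually_atTop.1 hu
        exact h1 _ ⟨m0, fun m hm _ => hm0 (m + i0) (by omega)⟩)
      (fun u hu => hi0 _ fun m hm => hu _ (by rwa [Nat.zero_add] at hm))
      (fun e G hG => by
        constructor
        · intro h
          by_contra hGp
          exact ker_shift hF hdom hx0 horb π (fun e G hG hGp => h2 _ ⟨e, G, hG, hGp, rfl⟩) i0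
            hG hGp h
        · intro hGp
          have h3 : (fun m => eval (x m) G) = 0 := funext ((hdense e G hG).2 hGp)
          rw [h3, map_zero]) hw (fam _ fun j => (hnest j).gr hδ)
    refine ⟨C, κ, fun n => ?_⟩
    obtain ⟨i, hi, hl⟩ := hlarge (i0 + n)
    refine ⟨i, hi, hC (n + i) fun u hu => hl _ fun m hm => ?_⟩
    exact hu (m + i0) (by rwa [show m + i0 + (n + i) = m + (i0 + n + i) by ring])

end

end Pool.Agent.T6.H45.NT
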